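import Pool.Agent.Q234.PE.Stm

/-!
# Project PE (helper234), job PT: translates of PEPS vectors are PEPS vectors
-/

set_option autoImplicit false

open scoped BigOperators Matrix
open Finset Pool.Agent.TH235.PP Pool.Agent.Q234.PL

namespace Pool.Agent.Q162.PE.PT

open Pool.Agent.Q234.PE

theorem contract_tr {D L : ℕ} [NeZero L] (A : Site L → Fin 2 → Fin D → Fin D → Fin D → Fin D → ℂ)
    (u : Site L) (s : Site L → Fin 2) :
    contract A (fun v => s (v + u)) = contract (fun v => A (v - u)) s := by
  unfold contract
  let e : Site L ≃ Site L := Equiv.addRight u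
  let E : (Site L → Fin D) ≃ (Site L → Fin D) := e.arrowCongr (Equiv.refl _)
  have hE : ∀ (h : Site L → Fin D) (x : Site L), E h x = h (x - u) := fun h x => by
    rw [sub_eq_add_neg]
    rfl
  symm
  rw [← E.sum_comp]
  refine Finset.sum_congr rfl fun h _ => ?_
  rw [← E.sum_comp]
  refine Finset.sum_congr rfl fun v _ => ?_
  rw [← e.prod_comp]
  refine Finset.prod_congr rfl fun x _ => ?_
  have he : e x = x + u := rfl
  simp only [hE, he]
  have h1 : x + u - u = x := by abel
  have h2 : ((x + u).1 - 1, (x + u).2) - u = (x.1 - 1, x.2) := by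
    ext
    · simp only [Prod.fst_sub, Prod.fst_add]
      abel
    · simp only [Prod.snd_sub, Prod.snd_add]
      abel
  have h3 : ((x + u).1, (x + u).2 - 1) - u = (x.1, x.2 - 1) := by
    ext
    · simp only [Prod.fst_sub, Prod.fst_add]
      abel
    · simp only [Prod.snd_sub, Prod.snd_add]
      abel
  rw [h1, h2, h3]

theorem main : PepsTr := by
  intro N D φ u hφ
  obtain ⟨A, rfl⟩ := hφ
  refine ⟨fun v => A (v - u), ?_⟩
  funext s
  exact contract_tr A u s

end Pool.Agent.Q162.PE.PT
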