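import Pool.Agent.Q234.PE.Stm
import Pool.Agent.Q63.PL.ST

/-!
# Project PE (helper234), job SG: the bound of the one-particle problem, for both signs

The proof is the one of `Pool.Agent.Q63.PL.ST.main` (helper63), which does not use the sign.
-/

set_option autoImplicit false

open scoped BigOperators Matrix
open Finset

namespace Pool.Agent.Q162.PE.SG

open Pool.Agent.Q234.PL Pool.Agent.Q234.PE Pool.Agent.Q63.PL.ST

theorem main (h1 : Hankel) (_h2 : AlSum) : StarG := by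
  intro N m ε lam R _ hl0 hl1 hm hmN hsm hR x y hxy
  have hb : 0 < 1 - lam := by linarith
  -- indices
  have he1 : ∀ k : Fin m, m - 1 - (k : ℕ) < N + 1 := fun k => by
    have := k.2
    omega
  have he2 : ∀ k : Fin m, m + (k : ℕ) < N + 1 := fun k => by
    have := k.2
    omega
  obtain ⟨e1, hed1⟩ : ∃ e1 : Fin m → Fin (N + 1), ∀ k, (e1 k : ℕ) = m - 1 - k :=
    ⟨fun k => ⟨m - 1 - k, he1 k⟩, fun k => rfl⟩
  obtain ⟨e2, hed2⟩ : ∃ e2 : Fin m → Fin (N + 1), ∀ k, (e2 k : ℕ) = m + k :=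
    ⟨fun k => ⟨m + k, he2 k⟩, fun k => rfl⟩
  have inj1 : Function.Injective e1 := by
    intro a b hab
    have h3 := congrArg Fin.val hab
    rw [hed1, hed1] at h3
    apply Fin.ext
    have := a.2
    have := b.2
    omega
  have inj2 : Function.Injective e2 := by
    intro a b hab
    have h3 := congrArg Fin.val hab
    rw [hed2, hed2] at h3
    apply Fin.ext
    omega
  have rng1 : ∀ i : Fin (N + 1), i ∉ Set.range e1 → m ≤ (i : ℕ) := by
    intro i hi
    by_contra hlt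
    rw [not_le] at hlt
    apply hi
    refine ⟨⟨m - 1 - i, by omega⟩, ?_⟩
    apply Fin.ext
    rw [hed1]
    simp only
    omega
  have sum1 : ∀ f : Fin (N + 1) → ℝ, (∀ i : Fin (N + 1), m ≤ (i : ℕ) → f i = 0) →
      ∑ i, f i = ∑ k, f (e1 k) := by
    intro f hf
    exact (Fintype.sum_of_injective e1 inj1 (fun k => f (e1 k)) f (fun i hi => hf i (rng1 i hi))
      (fun _ => rfl)).symm
  obtain ⟨z, hz⟩ : ∃ z : Fin (N + 1) → ℝ, z = Rᵀ *ᵥ x + R *ᵥ y := ⟨_, rfl⟩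
  rw [← hz]
  obtain ⟨X, hX⟩ : ∃ X : ℝ, X = Real.sqrt (∑ i, x i ^ 2) := ⟨_, rfl⟩
  obtain ⟨Y, hY⟩ : ∃ Y : ℝ, Y = Real.sqrt (∑ i, y i ^ 2) := ⟨_, rfl⟩
  obtain ⟨Z, hZ⟩ : ∃ Z : ℝ, Z = Real.sqrt (∑ i, z i ^ 2) := ⟨_, rfl⟩
  have hX0 : 0 ≤ X := hX ▸ Real.sqrt_nonneg _
  have hY0 : 0 ≤ Y := hY ▸ Real.sqrt_nonneg _
  have hZ0 : 0 ≤ Z := hZ ▸ Real.sqrt_nonneg _
  have hX2 : X ^ 2 = ∑ i, x i ^ 2 := by
    rw [hX, Real.sq_sqrt (sum_nonneg fun i _ => sq_nonneg _)]
  have hY2 : Y ^ 2 = ∑ i, y i ^ 2 := by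
    rw [hY, Real.sq_sqrt (sum_nonneg fun i _ => sq_nonneg _)]
  have hZ2 : Z ^ 2 = ∑ i, z i ^ 2 := by
    rw [hZ, Real.sq_sqrt (sum_nonneg fun i _ => sq_nonneg _)]
  rw [dot_sq, dot_sq, dot_sq, ← hX2, ← hY2, ← hZ2]
  unfold kap
  obtain ⟨h, hh'⟩ : ∃ h : ℝ, h = hh m lam := ⟨_, rfl⟩
  have hhd : h = lam ^ (2 * m - 1) / (2 * 49 ^ m) := by
    rw [hh']
    rfl
  rw [← hh']
  rw [← hh'] at hsm
  have hh0 : 0 < h := by
    rw [hhd]
    positivity
  have hh2 : h ≤ 1 / 2 := by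
    rw [hhd, div_le_div_iff₀ (by positivity) (by norm_num)]
    have h3 : lam ^ (2 * m - 1) ≤ 1 := pow_le_one₀ hl0.le hl1.le
    have h4 : (1 : ℝ) ≤ 49 ^ m := one_le_pow₀ (by norm_num)
    linarith
  obtain ⟨c, hc⟩ : ∃ c : ℝ, c = lam ^ (N + 1 - 2 * m) := ⟨_, rfl⟩
  rw [← hc] at hsm
  have hc0 : 0 < c := by
    rw [hc]
    positivity
  have hcle : ∀ p : ℕ, N + 1 - 2 * m ≤ p → lam ^ p ≤ c := by
    intro p hp
    rw [hc]
    exact pow_le_pow_of_le_one hl0.le hl1.le hp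
  -- the reflected vectors
  obtain ⟨u, hu⟩ : ∃ u : Fin m → ℝ, u = fun k => y (e1 k) := ⟨_, rfl⟩
  obtain ⟨v, hv⟩ : ∃ v : Fin m → ℝ, v = fun k => x (e1 k) := ⟨_, rfl⟩
  have hu2 : Real.sqrt (∑ k, u k ^ 2) = Y := by
    rw [hY, sum1 (fun i => y i ^ 2) (fun i hi => by simp [(hxy i hi).2]), hu]
  have hv2 : Real.sqrt (∑ k, v k ^ 2) = X := by
    rw [hX, sum1 (fun i => x i ^ 2) (fun i hi => by simp [(hxy i hi).1]), hv]
  have hze : ∀ l, z (e2 l) = ∑ k, R (e1 k) (e2 l) * v k + ∑ k, R (e2 l) (e1 k) * u k := by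
    intro l
    rw [hz, Pi.add_apply]
    congr 1
    · unfold Matrix.mulVec dotProduct
      simp only [Matrix.transpose_apply]
      rw [sum1 (fun i => R i (e2 l) * x i) (fun i hi => by simp [(hxy i hi).1]), hv]
    · unfold Matrix.mulVec dotProduct
      rw [sum1 (fun i => R (e2 l) i * y i) (fun i hi => by simp [(hxy i hi).2]), hu]
  -- the functional
  have hG : |∑ l, u l * z (e2 l)| ≤ Y * Z := by
    refine (cs u (fun l => z (e2 l))).trans ?_
    rw [hu2]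
    apply mul_le_mul_of_nonneg_left _ hY0
    rw [hZ]
    apply Real.sqrt_le_sqrt
    have h3 : ∑ l, z (e2 l) ^ 2 = ∑ i ∈ univ.map ⟨e2, inj2⟩, z i ^ 2 := by
      rw [sum_map]
      rfl
    rw [h3]
    exact sum_le_sum_of_subset_of_nonneg (subset_univ _) (fun i _ _ => sq_nonneg _)
  have hA : |∑ l, ∑ k, R (e1 k) (e2 l) * u l * v k| ≤ c * m * (Y * X) := by
    have h3 := bil (fun l k => R (e1 k) (e2 l)) c hc0.le (by
      intro l k
      have h4 := hR.entry (e1 k) (e2 l)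
      rw [hed1, hed2, if_neg (by omega), sub_zero] at h4
      refine h4.trans (hcle _ ?_)
      have := k.2
      have := l.2
      omega) u v
    rw [hu2, hv2] at h3
    exact h3
  have hB : h * Y ^ 2 - c * m * (Y * Y) ≤ -∑ l, ∑ k, R (e2 l) (e1 k) * u l * u k := by
    obtain ⟨er, her⟩ : ∃ er : Fin m → Fin m → ℝ, ∀ l k, er l k =
        R (e2 l) (e1 k) + al (l + k + 1) * lam ^ ((l : ℕ) + k + 1) :=
      ⟨fun l k => R (e2 l) (e1 k) + al (l + k + 1) * lam ^ ((l : ℕ) + k + 1), fun l k => rfl⟩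
    have h3 := bil er c hc0.le (by
      intro l k
      have h4 := hR.entry (e2 l) (e1 k)
      have hk := k.2
      have hl := l.2
      have h5 : m + (l : ℕ) - (m - 1 - k) = l + k + 1 := by omega
      rw [hed1, hed2, if_pos (by omega), h5] at h4
      have h6 : ac ((l : ℕ) + k + 1) = - al (l + k + 1) := by
        unfold ac
        rw [if_neg (by omega)]
      rw [h6] at h4
      rw [her]
      have h7 : R (e2 l) (e1 k) - -al (l + k + 1) * lam ^ ((l : ℕ) + k + 1) =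
          R (e2 l) (e1 k) + al (l + k + 1) * lam ^ ((l : ℕ) + k + 1) := by ring
      rw [h7] at h4
      refine h4.trans (hcle _ ?_)
      omega) u u
    rw [hu2] at h3
    have h8 : -∑ l, ∑ k, R (e2 l) (e1 k) * u l * u k =
        lam * ∑ l : Fin m, ∑ k : Fin m, al (l + k + 1) * (lam ^ (l : ℕ) * u l) * (lam ^ (k : ℕ) * u k) -
        ∑ l, ∑ k, er l k * u l * u k := by
      rw [mul_sum, ← sum_sub_distrib, ← sum_neg_distrib]
      apply sum_congr rfl
      intro l _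
      rw [mul_sum, ← sum_sub_distrib, ← sum_neg_distrib]
      apply sum_congr rfl
      intro k _
      rw [her, pow_add, pow_add, pow_one]
      ring
    have h9 := h1 m (fun l => lam ^ (l : ℕ) * u l)
    have h10 : lam ^ (2 * (m - 1)) * Y ^ 2 ≤ ∑ l : Fin m, (lam ^ (l : ℕ) * u l) ^ 2 := by
      have h11 : Y ^ 2 = ∑ k, u k ^ 2 := by
        rw [← hu2, Real.sq_sqrt (sum_nonneg fun i _ => sq_nonneg _)]
      rw [h11, mul_sum]
      apply sum_le_sum
      intro l _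
      rw [mul_pow, ← pow_mul]
      apply mul_le_mul_of_nonneg_right _ (sq_nonneg _)
      apply pow_le_pow_of_le_one hl0.le hl1.le
      have := l.2
      omega
    have h12 : h * Y ^ 2 = lam * ((1 / 2) * (1 / 49) ^ m * (lam ^ (2 * (m - 1)) * Y ^ 2)) := by
      rw [hhd]
      have h13 : lam ^ (2 * m - 1) = lam * lam ^ (2 * (m - 1)) := by
        rw [← pow_succ']
        congr 1
        omega
      rw [h13, one_div_pow]
      field_simp
    have h14 : h * Y ^ 2 ≤ lam * ∑ l : Fin m, ∑ k : Fin m,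
        al (l + k + 1) * (lam ^ (l : ℕ) * u l) * (lam ^ (k : ℕ) * u k) := by
      rw [h12]
      apply mul_le_mul_of_nonneg_left _ hl0.le
      exact (mul_le_mul_of_nonneg_left h10 (by positivity)).trans h9
    rw [abs_le] at h3
    rw [h8]
    linarith [h3.2]
  have hsum : ∑ l, u l * z (e2 l) = (∑ l, ∑ k, R (e1 k) (e2 l) * u l * v k) +
      ∑ l, ∑ k, R (e2 l) (e1 k) * u l * u k := by
    rw [← sum_add_distrib]
    apply sum_congr rfl
    intro l _
    rw [hze, mul_add, mul_sum, mul_sum]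
    congr 1
    · apply sum_congr rfl
      intro k _
      ring
    · apply sum_congr rfl
      intro k _
      ring
  have hkey : h * Y ≤ Z + (m * c) * X + (m * c) * Y := by
    rcases hY0.eq_or_lt with h3 | h3
    · rw [← h3, mul_zero, mul_zero, add_zero]
      have : 0 ≤ (m * c) * X := by positivity
      linarith
    · have h4 : Y * (h * Y) ≤ Y * (Z + (m * c) * X + (m * c) * Y) := by
        rw [abs_le] at hG hA
        nlinarith [hG.1, hA.1, hA.2, hB, hsum]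
      exact le_of_mul_le_mul_left h4 h3
  have hlow : (1 - lam) * X ≤ Z + 2 * Y := by
    have h3 : (1 - lam) * X ≤ Real.sqrt ((Rᵀ *ᵥ x) ⬝ᵥ (Rᵀ *ᵥ x)) := by
      apply Real.le_sqrt_of_sq_le
      have h4 := hR.lower x
      have h5 : (R *ᵥ x) ⬝ᵥ (R *ᵥ x) = (Rᵀ *ᵥ x) ⬝ᵥ (Rᵀ *ᵥ x) := by
        rw [Matrix.dotProduct_mulVec, Matrix.vecMul_mulVec, Matrix.dotProduct_mulVec,
          Matrix.vecMul_mulVec, Matrix.transpose_transpose, hR.normal]
      rw [← h5]
      rw [dot_sq x, ← hX2] at h4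
      have h6 : ((1 - lam) * X) ^ 2 ≤ (1 - lam) * X ^ 2 := by
        rw [mul_pow]
        apply mul_le_mul_of_nonneg_right _ (sq_nonneg _)
        nlinarith
      exact h6.trans h4
    have h4 : Rᵀ *ᵥ x = fun i => z i - (R *ᵥ y) i := by
      funext i
      rw [hz, Pi.add_apply]
      ring
    have h5 : Real.sqrt ((Rᵀ *ᵥ x) ⬝ᵥ (Rᵀ *ᵥ x)) ≤ Z + Real.sqrt (∑ i, (R *ᵥ y) i ^ 2) := by
      rw [dot_sq, h4, hZ]
      exact tri _ _
    have h6 : Real.sqrt (∑ i, (R *ᵥ y) i ^ 2) ≤ 2 * Y := by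
      rw [Real.sqrt_le_left (by positivity), ← dot_sq]
      have h7 := hR.upper y
      rw [dot_sq y, ← hY2] at h7
      nlinarith
    linarith
  exact fin_real h lam X Y Z (m * c) hh0 hh2 hl0 hl1 hX0 hY0 hZ0 (by positivity) (by linarith)
    hkey hlow

end Pool.Agent.Q162.PE.SG
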